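import Pool.Agent.H14.TOW.TargetsM

set_option autoImplicit false

open MvPolynomial
open Pool.Agent.H12.ZD (pmap)
open Pool.Agent.H18.HIT Pool.Agent.H18.HX Pool.Agent.H18.VP Pool.Agent.H18.VZ
open Pool.Agent.H14.TOW

namespace Pool.Agent.H61.TOW

section comp

variable {L M : ℕ} {k : Type} [Field k]

/-- the components of a substitution -/
theorem hom_comp_aeval' {G : Fin M → Po L k} {D : ℕ} (hG : ∀ i, (G i).IsHomogeneous D)
    (hD : 1 ≤ D) (t : ℕ) (c : Po M k) :
    homogeneousComponent (D * t) (aeval G c) = aeval G (homogeneousComponent t c) := by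
  conv_lhs => rw [← sum_homogeneousComponent c, map_sum, map_sum]
  have h1 : ∀ s, homogeneousComponent (D * t) (aeval G (homogeneousComponent s c)) =
      if s = t then aeval G (homogeneousComponent t c) else 0 := by
    intro s
    have hs : (aeval G (homogeneousComponent s c)).IsHomogeneous (D * s) :=
      (homogeneousComponent_isHomogeneous s c).aeval G hG
    rw [homogeneousComponent_of_mem hs]
    by_cases hst : s = t
    · subst hst
      rw [if_pos rfl, if_pos rfl]
    · rw [if_neg hst, if_neg]
      intro h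
      exact hst (Nat.eq_of_mul_eq_mul_left (by omega) h.symm)
  rw [Finset.sum_congr rfl fun s _ => h1 s, Finset.sum_ite_eq']
  split_ifs with h
  · rfl
  · rw [homogeneousComponent_eq_zero, map_zero]
    rw [Finset.mem_range] at h
    omega

/-- the components of a multiple of a form -/
theorem dvd_component' {P : Po L k} {r : ℕ} (hP : P.IsHomogeneous r) {c : Po L k} (h : P ∣ c)
    (t : ℕ) : P ∣ homogeneousComponent t c := by
  obtain ⟨a, rfl⟩ := h
  rw [← sum_homogeneousComponent a, Finset.mul_sum, map_sum]
  apply Finset.dvd_sum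
  intro s _
  have h1 : (P * homogeneousComponent s a).IsHomogeneous (r + s) :=
    hP.mul (homogeneousComponent_isHomogeneous s a)
  rw [homogeneousComponent_of_mem h1]
  split_ifs
  · exact dvd_mul_right _ _
  · exact dvd_zero _

/-- substitution of multiples -/
theorem aeval_mul_hom {E : Type} [CommRing E] [Algebra k E] {q : Po M k} {t : ℕ}
    (hq : q.IsHomogeneous t) (h : E)
    (G : Fin M → E) : aeval (fun i => h * G i) q = h ^ t * aeval G q := by
  rw [aeval_def, aeval_def, eval₂_eq', eval₂_eq', Finset.mul_sum]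
  apply Finset.sum_congr rfl
  intro m hm
  have h1 : ∏ i, (h * G i) ^ m i = h ^ t * ∏ i, G i ^ m i := by
    rw [Finset.prod_congr rfl fun i _ => mul_pow h (G i) (m i), Finset.prod_mul_distrib,
      Finset.prod_pow_eq_pow_sum]
    congr 2
    have h2 := hq (mem_support_iff.mp hm)
    rw [Finsupp.weight_apply, Finsupp.sum_fintype _ _ (fun i => by simp)] at h2
    simpa using h2
  rw [h1]
  ring

end comp

theorem pf_MSL : T_MSL := by
  intro k E _ _ _ σ n r d P F y hM
  set lam : E := aeval y (F (Fin.succ 0)) with hlam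
  have key : ∀ (t : ℕ) (c : Po (n + 1 + 1) k), c.IsHomogeneous t →
      aeval y (aeval F c) = lam ^ t * σ (aeval y c) := by
    intro t c hc
    have h1 : aeval y (aeval F c) = aeval (fun i => lam * σ (y i)) c := by
      rw [← AlgHom.comp_apply, comp_aeval]
      congr 2
      funext i
      exact hM.map i
    have h2 : aeval (fun i => σ (y i)) c = σ (aeval y c) := by
      rw [← AlgHom.comp_apply, comp_aeval]
    rw [h1, aeval_mul_hom hc, h2]
  have hne : lam ≠ 0 := hM.ne
  have hform : ∀ (t : ℕ) (c : Po (n + 1 + 1) k), c.IsHomogeneous t →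
      (P ∣ aeval F c ↔ P ∣ c) := by
    intro t c hc
    have hc' : (aeval F c).IsHomogeneous (d * t) := hc.aeval F hM.hom
    rw [← hM.ker _ _ hc', ← hM.ker _ _ hc, key t c hc, mul_eq_zero]
    constructor
    · rintro (h | h)
      · exact absurd h (pow_ne_zero t hne)
      · exact (map_eq_zero σ).1 h
    · intro h
      right
      rw [h, map_zero]
  have hd1 : 1 ≤ d := le_trans (by norm_num) hM.two
  refine ⟨⟨?_, ?_⟩, ?_⟩
  · intro c hc
    rw [Ideal.mem_span_singleton] at hc ⊢
    obtain ⟨a, rfl⟩ := hc
    rw [map_mul]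
    exact Dvd.dvd.mul_right ((hform r P hM.hyp.hom).2 (dvd_refl P)) _
  · intro c hc
    rw [Ideal.mem_span_singleton] at hc ⊢
    rw [← sum_homogeneousComponent c]
    apply Finset.dvd_sum
    intro t _
    have h1 := dvd_component' hM.hyp.hom hc (d * t)
    rw [hom_comp_aeval' hM.hom hd1] at h1
    exact (hform t _ (homogeneousComponent_isHomogeneous t c)).1 h1
  · intro hN m A B hA hB hPB hAB
    have hβ : aeval y B ≠ 0 := fun h => hPB ((hM.ker _ _ hB).1 h)
    have hP0 : aeval y P = 0 := (hM.ker _ _ hM.hyp.hom).2 (dvd_refl P)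
    obtain ⟨c, hc⟩ := hAB
    have h1 : aeval y (aeval F A * B - aeval F B * A) = 0 := by
      rw [hc, map_mul, hP0, zero_mul]
    rw [map_sub, map_mul, map_mul, key m A hA, key m B hB] at h1
    have h2 : σ (aeval y A) * aeval y B = σ (aeval y B) * aeval y A := by
      have h3 : lam ^ m * (σ (aeval y A) * aeval y B - σ (aeval y B) * aeval y A) = 0 := by
        linear_combination h1
      rcases mul_eq_zero.1 h3 with h | h
      · exact absurd h (pow_ne_zero m hne)
      · exact sub_eq_zero.1 h
    have hσβ : σ (aeval y B) ≠ 0 := fun h => hβ ((map_eq_zero σ).1 h)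
    obtain ⟨s, hs⟩ := hN (aeval y A / aeval y B) (by
      rw [map_div₀, div_eq_div_iff hσβ hβ, h2]; ring)
    refine ⟨s, ?_⟩
    have hhom : (A - C s * B).IsHomogeneous m := by
      refine hA.sub ?_
      have := (isHomogeneous_C (Fin (n + 1 + 1)) s).mul hB
      rwa [zero_add] at this
    rw [← hM.ker _ _ hhom, map_sub, map_mul, aeval_C, ← hs]
    rw [div_mul_cancel₀ _ hβ, sub_self]

end Pool.Agent.H61.TOW
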